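import Pool.Agent.W187.CV.Stm

/-! The law at an arbitrary real point. helper308, for helper187. -/

set_option autoImplicit false

namespace Pool.Agent.W308.CV

open Complex MeasureTheory Filter Topology Set
open scoped ComplexConjugate
open Pool.Agent.W187.UR Pool.Agent.W187.S2 Pool.Agent.W187.CV

/-- the order of `F` at `s₀` is finite -/
theorem order_ne_top {F G : ℂ → ℂ} {A s₀ : ℝ} (hF : ∀ x : ℝ, s₀ ≤ x → MeromorphicAt F (x : ℂ))
    (hG : ∀ s : ℂ, A < s.re → F s = exp (G s)) : meromorphicOrderAt F s₀ ≠ ⊤ := by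
  set M : ℝ := max s₀ A + 1 with hM
  have hsM : s₀ ≤ M := (le_max_left s₀ A).trans (by linarith)
  have hAM : A < M := lt_of_le_of_lt (le_max_right s₀ A) (by linarith)
  set U : Set ℂ := (fun x : ℝ => (x : ℂ)) '' Icc s₀ M with hU
  have hUc : IsConnected U :=
    (isConnected_Icc hsM).image _ Complex.continuous_ofReal.continuousOn
  have hmer : MeromorphicOn F U := by
    rintro z ⟨x, hx, rfl⟩
    exact hF x hx.1
  have h1 := (hmer.exists_meromorphicOrderAt_ne_top_iff_forall hUc).1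
    ⟨⟨(M : ℂ), ⟨M, ⟨hsM, le_refl _⟩, rfl⟩⟩, by
      intro htop
      rw [meromorphicOrderAt_eq_top_iff] at htop
      have h2 : ∀ᶠ z : ℂ in 𝓝[≠] (M : ℂ), A < z.re := by
        apply eventually_nhdsWithin_of_eventually_nhds
        exact (Complex.continuous_re.isOpen_preimage _ isOpen_Ioi).mem_nhds (by simpa using hAM)
      obtain ⟨z, h3, h4⟩ := (htop.and h2).exists
      rw [hG z h4] at h3
      exact exp_ne_zero _ h3⟩
  exact h1 ⟨(s₀ : ℂ), ⟨s₀, ⟨le_refl _, hsM⟩, rfl⟩⟩

/-- the affine substitution -/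
theorem subst {F : ℂ → ℂ} {a s₀ : ℝ} (ha : 0 < a) (hF : MeromorphicAt F (s₀ : ℂ)) {m : ℤ}
    (hm : meromorphicOrderAt F s₀ = m) :
    meromorphicOrderAt (fun w : ℂ => F (s₀ + a * w)) 0 = m ∧
    meromorphicTrailingCoeffAt F s₀ ≠ 0 ∧
    meromorphicTrailingCoeffAt (fun w : ℂ => F (s₀ + a * w)) 0 =
      (a : ℂ) ^ m * meromorphicTrailingCoeffAt F s₀ := by
  have ha' : (a : ℂ) ≠ 0 := by exact_mod_cast ha.ne'
  obtain ⟨g, hg, hg0, hgF⟩ := (meromorphicOrderAt_eq_int_iff hF).1 hm
  have htr : meromorphicTrailingCoeffAt F s₀ = g s₀ :=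
    hg.meromorphicTrailingCoeffAt_of_ne_zero_of_eq_nhdsNE hg0 hgF
  set φ : ℂ → ℂ := fun w => s₀ + a * w with hφ
  have hφ0 : φ 0 = s₀ := by simp [hφ]
  have hφa : AnalyticAt ℂ φ 0 := by
    fun_prop
  have htend : Tendsto φ (𝓝[≠] 0) (𝓝[≠] (s₀ : ℂ)) := by
    rw [tendsto_nhdsWithin_iff]
    constructor
    · have := hφa.continuousAt.tendsto
      rw [hφ0] at this
      exact this.mono_left nhdsWithin_le_nhds
    · filter_upwards [self_mem_nhdsWithin] with w hw
      have hw' : w ≠ 0 := hw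
      show φ w ≠ s₀
      intro h
      apply hw'
      have : (a : ℂ) * w = 0 := by
        have h5 : (s₀ : ℂ) + a * w = s₀ := h
        linear_combination h5
      exact (mul_eq_zero.1 this).resolve_left ha'
  set G : ℂ → ℂ := fun w => (a : ℂ) ^ m * g (φ w) with hG
  have hGa : AnalyticAt ℂ G 0 := by
    apply analyticAt_const.mul
    apply AnalyticAt.fun_comp _ hφa
    rw [hφ0]
    exact hg
  have hG0 : G 0 = (a : ℂ) ^ m * g s₀ := by
    simp only [hG, hφ0]
  have hG0' : G 0 ≠ 0 := by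
    rw [hG0]
    exact mul_ne_zero (zpow_ne_zero _ ha') hg0
  have hev : ∀ᶠ w in 𝓝[≠] (0 : ℂ), (fun w : ℂ => F (s₀ + a * w)) w = (w - 0) ^ m • G w := by
    filter_upwards [htend.eventually hgF] with w hw
    show F (φ w) = _
    rw [hw]
    simp only [hG, hφ, smul_eq_mul, sub_zero, add_sub_cancel_left, mul_zpow]
    ring
  have hmer : MeromorphicAt (fun w : ℂ => F (s₀ + a * w)) 0 := by
    have : MeromorphicAt (F ∘ φ) 0 := MeromorphicAt.comp_analyticAt (by rw [hφ0]; exact hF) hφa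
    exact this
  refine ⟨(meromorphicOrderAt_eq_int_iff hmer).2 ⟨G, hGa, hG0', hev⟩, ?_, ?_⟩
  · rw [htr]
    exact hg0
  · rw [hGa.meromorphicTrailingCoeffAt_of_ne_zero_of_eq_nhdsNE hG0' hev, hG0, htr]

theorem point (h : S_LAWX) : S_POINT := by
  intro ι _ lam b A s₀ hlam hsum F hF hFe
  obtain ⟨m, hm⟩ := WithTop.ne_top_iff_exists.1 (order_ne_top hF hFe)
  have hm' : meromorphicOrderAt F s₀ = m := hm.symm
  set a : ℝ := max 1 (A - s₀) with ha
  have ha1 : 1 ≤ a := le_max_left _ _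
  have hapos : 0 < a := by linarith
  have haA : A ≤ s₀ + a := by
    have := le_max_right 1 (A - s₀)
    linarith
  have ha' : (a : ℂ) ≠ 0 := by exact_mod_cast hapos.ne'
  obtain ⟨h1, h2, h3⟩ := subst hapos (hF s₀ (le_refl _)) hm'
  refine ⟨m, hm', h2, ?_⟩
  have hnorm : ∀ i, ‖b i * exp (-(s₀ * lam i))‖ = ‖b i‖ * Real.exp (-(s₀ * lam i)) := by
    intro i
    rw [norm_mul, Complex.norm_exp]
    congr 2
    rw [← Complex.ofReal_mul, ← Complex.ofReal_neg, Complex.ofReal_re]
  obtain ⟨r, hr, hlaw⟩ := h (fun i => a * lam i) (fun i => b i * exp (-(s₀ * lam i)))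
    (fun i => mul_nonneg hapos.le (hlam i))
    (by
      intro σ hσ
      have h5 : A < s₀ + σ * a := by nlinarith
      refine (hsum (s₀ + σ * a) h5).congr fun i => ?_
      rw [hnorm i, mul_assoc, ← Real.exp_add]
      congr 2
      ring)
    (fun w : ℂ => F (s₀ + a * w))
    (by
      intro x hx
      have h5 : MeromorphicAt F ((s₀ : ℂ) + a * x) := by
        have h6 := hF (s₀ + a * x) (by nlinarith [hx.1, mul_nonneg hapos.le hx.1])
        push_cast at h6
        exact h6
      have h7 : AnalyticAt ℂ (fun w : ℂ => (s₀ : ℂ) + a * w) (x : ℂ) := by fun_prop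
      exact MeromorphicAt.comp_analyticAt (f := F) (g := fun w : ℂ => (s₀ : ℂ) + a * w) h5 h7)
    (by
      intro w hw
      have h5 : A < ((s₀ : ℂ) + a * w).re := by
        have : ((s₀ : ℂ) + a * w).re = s₀ + a * w.re := by
          simp
        rw [this]
        nlinarith
      show F (s₀ + a * w) = _
      rw [hFe _ h5]
      congr 1
      refine tsum_congr fun i => ?_
      rw [mul_assoc, ← Complex.exp_add]
      congr 2
      push_cast
      ring)
    m h1
  refine ⟨r - m * Real.log a, ?_, ?_⟩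
  · rw [exp_sub, hr, h3]
    have h5 : exp (m * Real.log a) = (a : ℂ) ^ m := by
      rw [Complex.exp_int_mul, ← Complex.ofReal_exp, Real.exp_log hapos]
    rw [h5]
    field_simp
  · intro γ hγ
    obtain ⟨C, T₀, hC, hT₀, hb⟩ := hlaw γ hγ
    refine ⟨C, T₀, hC, hT₀, fun T hT => ?_⟩
    have hT1 : 1 ≤ T := hT₀.trans hT
    have hTpos : 0 < T := by linarith
    have haT : a * T ≥ T₀ := by nlinarith
    have h5 := hb (a * T) haT
    have h6 : C / (a * T) ≤ C / T := by
      apply div_le_div_of_nonneg_left hC hTpos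
      nlinarith
    refine le_trans (le_of_eq ?_) (h5.trans h6)
    congr 1
    have h7 : ∀ i, a * lam i / (a * T) = lam i / T := by
      intro i
      rw [mul_div_mul_left _ _ hapos.ne']
    have h8 : Real.log (a * T) = Real.log a + Real.log T := Real.log_mul hapos.ne' hTpos.ne'
    simp only [h7, h8]
    push_cast
    ring

end Pool.Agent.W308.CV
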